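import Pool.Agent.Helper71.BM.Basic

set_option autoImplicit false

/-! # There is an optimal packing -/

namespace Pool.Agent.Helper71.BM

open Finset ErdPos

theorem opt_length_le {V : Type} (P : List (List V)) (h : ∀ l ∈ P, l ≠ []) :
    P.length ≤ P.flatten.length := by
  induction P with
  | nil => simp
  | cons l P ih =>
    have h1 := ih fun l' hl' => h l' (List.mem_cons_of_mem _ hl')
    have h2 : 0 < l.length := List.length_pos_iff.2 (h l List.mem_cons_self)
    rw [List.flatten_cons, List.length_append, List.length_cons]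
    omega

theorem st_OPT (h1 : ST_LNG) : ST_OPT := by
  intro V _ _ G k e K q N w W t hC s lam Lam E1 E2 Y m hp hex
  obtain ⟨l, hl, hkl⟩ := hex
  have hfl : ([l] : List (List V)).flatten = l := by simp
  have hlen := h1 V G k e K q N w W t hC hp.k3 hp.we [l] hl (by rw [hfl]; exact hkl)
  rw [hfl] at hlen
  have hE1 : E1 ≤ l.length := by
    have := hp.he
    omega
  set S : Set (List (List V)) :=
    {P | Pkg G q W t P ∧ (∀ l ∈ P, E1 ≤ l.length) ∧ k ≤ P.flatten.length} with hS
  have hne : S.Nonempty := by
    refine ⟨[l], hl, ?_, ?_⟩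
    · intro l' hl'
      rw [List.mem_singleton] at hl'
      rw [hl']
      exact hE1
    · rw [hfl]
      exact hkl
  set f : List (List V) → ℕ := fun P => P.flatten.length + Y * (Fintype.card V - P.length) with hf
  obtain ⟨P, hP, hmin⟩ := (measure f).wf.has_min S hne
  have hcard : ∀ P' ∈ S, P'.length ≤ Fintype.card V := by
    intro P' hP'
    refine (opt_length_le P' ?_).trans (hP'.1.1.length_le_card)
    intro l' hl' h0
    obtain ⟨a, b, hE⟩ := hP'.1.2 l' hl'
    exact hE.2.2.2.1.ne_nil h0
  refine ⟨P, hP, fun P' hP1 hP2 hP3 => ?_⟩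
  have hP' : P' ∈ S := ⟨hP1, hP2, hP3⟩
  have h2 : f P ≤ f P' := not_lt.1 (hmin P' hP')
  have h3 := hcard P hP
  have h4 := hcard P' hP'
  obtain ⟨c, hc⟩ := Nat.exists_eq_add_of_le h3
  obtain ⟨c', hc'⟩ := Nat.exists_eq_add_of_le h4
  have e1 : Fintype.card V - P.length = c := by omega
  have e2 : Fintype.card V - P'.length = c' := by omega
  have h5 : P.flatten.length + Y * c ≤ P'.flatten.length + Y * c' := by
    rw [← e1, ← e2]
    exact h2
  have h6 : P.length + c = P'.length + c' := by omega
  have h7 : Y * P.length + Y * c = Y * P'.length + Y * c' := by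
    rw [← mul_add, ← mul_add, h6]
  omega

end Pool.Agent.Helper71.BM
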